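import Pool.Agent.H297R2.LG.Defs
import Pool.Agent.H382R2.GaussMV

/-! LG task 4: Gaussian mean value of `|E|² n^{-it}`. -/

open Complex Filter Topology Set MeasureTheory

namespace LG

open SG (hh nn dd dl ord NZ)
open SP (RHs ZZ mu wt Mk Par Eb PS chi qq tt)

namespace GMVaux

theorem log_gap {a b : ℕ} {X : ℝ} (ha : 1 ≤ a) (hb : 1 ≤ b) (haX : (a : ℝ) ≤ X) (h : a ≠ b) :
    1 / (4 * X ^ 2) ≤ (Real.log a - Real.log b) ^ 2 := by
  have ha0 : (0 : ℝ) < a := by exact_mod_cast ha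
  have hb0 : (0 : ℝ) < b := by exact_mod_cast hb
  have hX0 : 0 < X := lt_of_lt_of_le ha0 haX
  have key : 1 / (2 * X) ≤ |Real.log a - Real.log b| := by
    rcases lt_or_gt_of_ne h with h | h
    · -- a < b
      have h1 := Real.one_sub_inv_le_log_of_pos (div_pos hb0 ha0)
      rw [Real.log_div hb0.ne' ha0.ne', inv_div] at h1
      have h2 : (a : ℝ) + 1 ≤ b := by exact_mod_cast h
      have h3 : 1 / (2 * X) ≤ 1 - (a : ℝ) / b := by
        have e1 : (a : ℝ) / b ≤ a / (a + 1) :=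
          div_le_div_of_nonneg_left ha0.le (by positivity) h2
        have e2 : 1 - (a : ℝ) / (a + 1) = 1 / (a + 1) := by field_simp; ring
        have e3 : 1 / (2 * X) ≤ 1 / ((a : ℝ) + 1) := by
          apply one_div_le_one_div_of_le (by positivity)
          have : (1 : ℝ) ≤ a := by exact_mod_cast ha
          linarith
        linarith
      rw [abs_sub_comm]
      exact le_trans (by linarith) (le_abs_self _)
    · have h1 := Real.one_sub_inv_le_log_of_pos (div_pos ha0 hb0)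
      rw [Real.log_div ha0.ne' hb0.ne', inv_div] at h1
      have h2 : (b : ℝ) + 1 ≤ a := by exact_mod_cast h
      have h3 : 1 / (2 * X) ≤ 1 - (b : ℝ) / a := by
        have e2 : 1 - (b : ℝ) / a = (a - b) / a := by field_simp
        rw [e2, div_le_div_iff₀ (by positivity) ha0]
        nlinarith
      exact le_trans (by linarith) (le_abs_self _)
  calc 1 / (4 * X ^ 2) = (1 / (2 * X)) ^ 2 := by rw [div_pow, mul_pow]; norm_num
    _ ≤ |Real.log a - Real.log b| ^ 2 := pow_le_pow_left₀ (by positivity) key 2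
    _ = _ := sq_abs _

theorem expand {ι : Type*} (S : Finset ι) (e l : ι → ℝ) (lg t : ℝ) :
    ((‖∑ i ∈ S, (e i : ℂ) * cexp (I * ((t * l i : ℝ) : ℂ))‖ ^ 2 : ℝ) : ℂ) *
        cexp (-(I * ((t * lg : ℝ) : ℂ))) =
      ∑ i ∈ S, ∑ j ∈ S, ((e i * e j : ℝ) : ℂ) * cexp (I * ((l i - l j - lg : ℝ) : ℂ) * t) := by
  have h1 : ((‖∑ i ∈ S, (e i : ℂ) * cexp (I * ((t * l i : ℝ) : ℂ))‖ ^ 2 : ℝ) : ℂ) =
      (∑ i ∈ S, (e i : ℂ) * cexp (I * ((t * l i : ℝ) : ℂ))) *
        (starRingEnd ℂ) (∑ i ∈ S, (e i : ℂ) * cexp (I * ((t * l i : ℝ) : ℂ))) := by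
    rw [Complex.mul_conj, Complex.normSq_eq_norm_sq]
  rw [h1, map_sum, Finset.sum_mul_sum, Finset.sum_mul]
  refine Finset.sum_congr rfl fun i _ => ?_
  rw [Finset.sum_mul]
  refine Finset.sum_congr rfl fun j _ => ?_
  rw [map_mul, Complex.conj_ofReal, ← Complex.exp_conj, map_mul, Complex.conj_I,
    Complex.conj_ofReal]
  have h2 : cexp (I * ((l i - l j - lg : ℝ) : ℂ) * t) =
      cexp (I * ((t * l i : ℝ) : ℂ)) * cexp (-I * ((t * l j : ℝ) : ℂ)) *
        cexp (-(I * ((t * lg : ℝ) : ℂ))) := by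
    rw [← Complex.exp_add, ← Complex.exp_add]
    congr 1
    push_cast
    ring
  rw [h2]
  push_cast
  ring

end GMVaux

/-! ## 4. GMV : Gaussian mean value -/
theorem GMV {ι : Type*} (S : Finset ι) (e : ι → ℝ) (x y : ι → ℕ) (D t0 X : ℝ) (n : ℕ) (hD : 0 < D)
    (hX : 1 ≤ X) (hx : ∀ i ∈ S, 1 ≤ x i) (hy : ∀ i ∈ S, 1 ≤ y i)
    (hxy : ∀ i ∈ S, ∀ j ∈ S, ((x i : ℝ) * y j) ≤ X) (hn : 1 ≤ n) :
    ‖(∫ t : ℝ, (wt t0 D t : ℂ) * ((‖∑ i ∈ S, (e i : ℂ) *
        cexp (I * ((t * (Real.log (x i) - Real.log (y i)) : ℝ) : ℂ))‖ ^ 2 : ℝ) : ℂ) *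
        cexp (-(I * ((t * Real.log n : ℝ) : ℂ)))) -
      ((Real.sqrt (2 * Real.pi) * D *
        ∑ i ∈ S, ∑ j ∈ S, (if x i * y j = n * (y i * x j) then e i * e j else 0) : ℝ) : ℂ)‖ ≤
      Real.sqrt (2 * Real.pi) * D * (∑ i ∈ S, |e i|) ^ 2 * Real.exp (-(D ^ 2 / (8 * X ^ 2))) := by
  set l : ι → ℝ := fun i => Real.log (x i) - Real.log (y i) with hl
  have h0 : ∀ t : ℝ, (wt t0 D t : ℂ) * ((‖∑ i ∈ S, (e i : ℂ) *
        cexp (I * ((t * (Real.log (x i) - Real.log (y i)) : ℝ) : ℂ))‖ ^ 2 : ℝ) : ℂ) *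
        cexp (-(I * ((t * Real.log n : ℝ) : ℂ))) =
      ∑ i ∈ S, ∑ j ∈ S, ((e i * e j : ℝ) : ℂ) *
        ((Real.exp (-(t - t0) ^ 2 / (2 * D ^ 2)) : ℂ) *
          cexp (I * ((l i - l j - Real.log n : ℝ) : ℂ) * t)) := by
    intro t
    have h := GMVaux.expand S e l (Real.log n) t
    rw [mul_assoc, h, Finset.mul_sum]
    refine Finset.sum_congr rfl fun i _ => ?_
    rw [Finset.mul_sum]
    refine Finset.sum_congr rfl fun j _ => ?_
    rw [wt]
    ring
  simp_rw [h0]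
  rw [integral_finsetSum _ fun i _ => integrable_finsetSum _ fun j _ =>
    (SG.MVaux.ek_int D t0 _ hD).const_mul _]
  have h1 : ∀ i ∈ S, ∫ t : ℝ, ∑ j ∈ S, ((e i * e j : ℝ) : ℂ) *
        ((Real.exp (-(t - t0) ^ 2 / (2 * D ^ 2)) : ℂ) *
          cexp (I * ((l i - l j - Real.log n : ℝ) : ℂ) * t)) =
      ∑ j ∈ S, ((e i * e j : ℝ) : ℂ) * (((D * Real.sqrt (2 * Real.pi) : ℝ) : ℂ) *
        (cexp (I * ((l i - l j - Real.log n : ℝ) : ℂ) * t0) *
          ((Real.exp (-(D ^ 2 * (l i - l j - Real.log n) ^ 2 / 2)) : ℝ) : ℂ))) := by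
    intro i _
    rw [integral_finsetSum _ fun j _ => (SG.MVaux.ek_int D t0 _ hD).const_mul _]
    refine Finset.sum_congr rfl fun j _ => ?_
    rw [integral_const_mul, SG.MVaux.ek_val D t0 _ hD]
  rw [Finset.sum_congr rfl h1]
  have h2 : ((Real.sqrt (2 * Real.pi) * D *
        ∑ i ∈ S, ∑ j ∈ S, (if x i * y j = n * (y i * x j) then e i * e j else 0) : ℝ) : ℂ) =
      ∑ i ∈ S, ∑ j ∈ S, (if x i * y j = n * (y i * x j) then
        ((e i * e j : ℝ) : ℂ) * ((D * Real.sqrt (2 * Real.pi) : ℝ) : ℂ) else 0) := by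
    rw [Complex.ofReal_mul, Complex.ofReal_sum, Finset.mul_sum]
    refine Finset.sum_congr rfl fun i _ => ?_
    rw [Complex.ofReal_sum, Finset.mul_sum]
    refine Finset.sum_congr rfl fun j _ => ?_
    split_ifs
    · push_cast; ring
    · simp
  rw [h2, ← Finset.sum_sub_distrib]
  have hDs : 0 ≤ D * Real.sqrt (2 * Real.pi) := by positivity
  have h3 : ∀ i ∈ S, ∀ j ∈ S,
      ‖((e i * e j : ℝ) : ℂ) * (((D * Real.sqrt (2 * Real.pi) : ℝ) : ℂ) *
        (cexp (I * ((l i - l j - Real.log n : ℝ) : ℂ) * t0) *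
          ((Real.exp (-(D ^ 2 * (l i - l j - Real.log n) ^ 2 / 2)) : ℝ) : ℂ))) -
        (if x i * y j = n * (y i * x j) then
          ((e i * e j : ℝ) : ℂ) * ((D * Real.sqrt (2 * Real.pi) : ℝ) : ℂ) else 0)‖ ≤
      |e i| * |e j| * (D * Real.sqrt (2 * Real.pi) * Real.exp (-(D ^ 2 / (8 * X ^ 2)))) := by
    intro i hi j hj
    have hxi := hx i hi
    have hxj := hx j hj
    have hyi := hy i hi
    have hyj := hy j hj
    have rxi : (x i : ℝ) ≠ 0 := by exact_mod_cast (by omega : x i ≠ 0)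
    have rxj : (x j : ℝ) ≠ 0 := by exact_mod_cast (by omega : x j ≠ 0)
    have ryi : (y i : ℝ) ≠ 0 := by exact_mod_cast (by omega : y i ≠ 0)
    have ryj : (y j : ℝ) ≠ 0 := by exact_mod_cast (by omega : y j ≠ 0)
    have rn : (n : ℝ) ≠ 0 := by exact_mod_cast (by omega : n ≠ 0)
    have hw : l i - l j - Real.log n =
        Real.log ((x i * y j : ℕ) : ℝ) - Real.log ((n * (y i * x j) : ℕ) : ℝ) := by
      push_cast
      rw [Real.log_mul rxi ryj, Real.log_mul rn (mul_ne_zero ryi rxj), Real.log_mul ryi rxj]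
      simp only [hl]
      ring
    by_cases hij : x i * y j = n * (y i * x j)
    · rw [if_pos hij]
      have hw0 : l i - l j - Real.log n = 0 := by rw [hw, hij, sub_self]
      rw [hw0]
      simp only [Complex.ofReal_zero, mul_zero, zero_mul, Complex.exp_zero, one_mul]
      have : ((e i * e j : ℝ) : ℂ) * (((D * Real.sqrt (2 * Real.pi) : ℝ) : ℂ) *
        ((Real.exp (-(D ^ 2 * 0 ^ 2 / 2)) : ℝ) : ℂ)) -
          ((e i * e j : ℝ) : ℂ) * ((D * Real.sqrt (2 * Real.pi) : ℝ) : ℂ) = 0 := by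
        simp
      rw [this, norm_zero]
      positivity
    · rw [if_neg hij, sub_zero, norm_mul, norm_mul, norm_mul, Complex.norm_real, Complex.norm_real,
        Complex.norm_real,
        Real.norm_of_nonneg hDs, Real.norm_of_nonneg (Real.exp_pos _).le, Real.norm_eq_abs, abs_mul]
      have e1 : ‖cexp (I * ((l i - l j - Real.log n : ℝ) : ℂ) * t0)‖ = 1 := by
        rw [Complex.norm_exp]
        have : (I * ((l i - l j - Real.log n : ℝ) : ℂ) * t0).re = 0 := by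
          rw [mul_assoc, ← Complex.ofReal_mul, Complex.I_mul_re, Complex.ofReal_im, neg_zero]
        rw [this, Real.exp_zero]
      rw [e1, one_mul]
      have e2 : Real.exp (-(D ^ 2 * (l i - l j - Real.log n) ^ 2 / 2)) ≤
          Real.exp (-(D ^ 2 / (8 * X ^ 2))) := by
        apply Real.exp_le_exp.mpr
        have hX0 : 0 < X := by linarith
        have hb1 : 1 ≤ n * (y i * x j) :=
          Nat.one_le_iff_ne_zero.mpr (Nat.mul_ne_zero (by omega)
            (Nat.mul_ne_zero (by omega) (by omega)))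
        have ha1 : 1 ≤ x i * y j :=
          Nat.one_le_iff_ne_zero.mpr (Nat.mul_ne_zero (by omega) (by omega))
        have haX : ((x i * y j : ℕ) : ℝ) ≤ X := by
          push_cast
          exact hxy i hi j hj
        have h := GMVaux.log_gap ha1 hb1 haX hij
        rw [← hw] at h
        have h' : D ^ 2 * (1 / (4 * X ^ 2)) ≤ D ^ 2 * (l i - l j - Real.log n) ^ 2 :=
          mul_le_mul_of_nonneg_left h (by positivity)
        have e3 : D ^ 2 / (8 * X ^ 2) = D ^ 2 * (1 / (4 * X ^ 2)) / 2 := by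
          field_simp
          norm_num
        rw [e3]
        linarith
      exact mul_le_mul_of_nonneg_left (mul_le_mul_of_nonneg_left e2 hDs) (by positivity)
  calc _ ≤ ∑ i ∈ S, ‖∑ j ∈ S, ((e i * e j : ℝ) : ℂ) * (((D * Real.sqrt (2 * Real.pi) : ℝ) : ℂ) *
        (cexp (I * ((l i - l j - Real.log n : ℝ) : ℂ) * t0) *
          ((Real.exp (-(D ^ 2 * (l i - l j - Real.log n) ^ 2 / 2)) : ℝ) : ℂ))) -
        ∑ j ∈ S, (if x i * y j = n * (y i * x j) then
          ((e i * e j : ℝ) : ℂ) * ((D * Real.sqrt (2 * Real.pi) : ℝ) : ℂ) else 0)‖ :=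
        norm_sum_le _ _
    _ ≤ ∑ i ∈ S, ∑ j ∈ S,
          |e i| * |e j| * (D * Real.sqrt (2 * Real.pi) * Real.exp (-(D ^ 2 / (8 * X ^ 2)))) := by
        refine Finset.sum_le_sum fun i hi => ?_
        rw [← Finset.sum_sub_distrib]
        exact (norm_sum_le _ _).trans (Finset.sum_le_sum fun j hj => h3 i hi j hj)
    _ = _ := by
        simp_rw [← Finset.sum_mul]
        rw [sq (∑ i ∈ S, |e i|), Finset.sum_mul_sum]
        ring

end LG
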